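import Pool.Agent.Zk73.L1.Main

/-!
# The curse of dimensionality for `L₁`-type integration on the mixed Sobolev space `F_{d,∞}`

For nonnegative quadrature formulas, `N⁺(ε, d) ≥ (1 - 13 ε) · 1.07^d` for all `ε > 0` and `d ≥ 1`.
So integration on `F_{d,∞}` (the case `p = 1`) suffers from the curse of dimensionality.

Idea of the proof. Let `F(x) = ∑_k a_k 1[t_k ≤ x]` and suppose `F` is close to `∏ x_i` in `L₁`,
relative to `2^{-d}`. Halving the `i`-th coordinate of `x` halves `∏ x_i`, hence roughly halves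
`F(x)`. So about half of the mass `F(x)` sits at nodes with `t_{k,i} > x_i / 2`. Averaging over `i`,
for most `x` (for the density `∏ 2 x_i`) there is a node `t_k ≤ x` which has
`t_{k,i} > x_i / 2` for at least `d / 4` of the `i`. For a fixed node, the probability that `x` is such is
at most `1.07^{-d}`, by an exponential moment bound.
-/

set_option autoImplicit false

open Pool.Agent.Zk73.L1
open scoped ENNReal

namespace Pool.Agent.Results.MP_2335a4_an.Curse

/-- `N⁺(ε, d) ≥ (1 - 13 ε) (107/100)^d` for all `ε > 0` and all `d ≥ 1`. -/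
theorem result (ε : ℝ) (hε : 0 < ε) (d : ℕ) (hd : 1 ≤ d) :
    ENNReal.ofReal ((1 - 13 * ε) * (107 / 100) ^ d) ≤ ((NPlus ε d : ℕ∞) : ℝ≥0∞) :=
  nPlus_ge ε hε.le d hd

/-- The curse of dimensionality in the form of the problem (a consequence of `result`). -/
theorem curse : ∃ ε : ℝ, 0 < ε ∧ ∃ C : ℝ, 1 < C ∧
    ∀ᶠ d : ℕ in Filter.atTop, ENNReal.ofReal (C ^ d) ≤ ((NPlus ε d : ℕ∞) : ℝ≥0∞) := by
  refine ⟨1 / 26, by norm_num, 106 / 100, by norm_num, ?_⟩
  have h1 : Filter.Tendsto (fun d : ℕ => ((107 / 106 : ℝ)) ^ d) Filter.atTop Filter.atTop :=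
    tendsto_pow_atTop_atTop_of_one_lt (by norm_num)
  filter_upwards [h1.eventually_ge_atTop 2, Filter.eventually_ge_atTop 1] with d hd hd1
  refine (ENNReal.ofReal_le_ofReal ?_).trans (result (1 / 26) (by norm_num) d hd1)
  have h2 : (107 / 100 : ℝ) ^ d = (107 / 106) ^ d * (106 / 100) ^ d := by
    rw [← mul_pow]; norm_num
  rw [h2]
  have h3 : (0:ℝ) < (106 / 100) ^ d := by positivity
  nlinarith

end Pool.Agent.Results.MP_2335a4_an.Curse
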